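import Pool.Agent.Lib.MP_3ee548_nt.RS.Iface

/-!
# Module ASMA of the RS board (MP_3ee548_nt): `PB b` gives `PA (7/2 - (1+b)/(2(b-1)))`
-/

set_option autoImplicit false

open scoped BigOperators
open Classical

namespace Pool.Agent.Lib.MP_3ee548_nt.RS.H93

open Pool.Agent.Lib.MP_3ee548_nt.RS

lemma sa_neg_norm (k : ℕ) (t : ℝ) : ‖SA k (-t)‖ = ‖SA k t‖ := by
  have h : SA k (-t) = (starRingEnd ℂ) (SA k t) := by
    unfold SA
    rw [map_sum]
    refine Finset.sum_congr rfl (fun m _ => ?_)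
    rw [map_mul, Complex.conj_ofReal]
    congr 1
    unfold e
    rw [← Complex.exp_conj]
    congr 1
    rw [map_mul, Complex.conj_ofReal, Complex.conj_I]
    push_cast
    ring
  rw [h, RCLike.norm_conj]

lemma sa_cont (k : ℕ) : Continuous (fun t : ℝ => SA k t) := by
  unfold SA e
  refine continuous_finsetSum _ (fun m _ => ?_)
  fun_prop

lemma q_anti (lam : ℕ → ℝ) (D : Finset ℕ) (T T' : ℝ) (hT : 0 < T) (h : T ≤ T') :
    Q lam D T' ≤ Q lam D T := by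
  unfold Q PC
  have : (((D ×ˢ D) ×ˢ (D ×ˢ D)).filter (fun p : (ℕ × ℕ) × (ℕ × ℕ) =>
      |(lam p.1.1 + lam p.1.2) - (lam p.2.1 + lam p.2.2)| ≤ 1 / T')).card ≤
      (((D ×ˢ D) ×ˢ (D ×ˢ D)).filter (fun p : (ℕ × ℕ) × (ℕ × ℕ) =>
      |(lam p.1.1 + lam p.1.2) - (lam p.2.1 + lam p.2.2)| ≤ 1 / T)).card := by
    apply Finset.card_le_card
    intro p hp
    rw [Finset.mem_filter] at hp ⊢
    exact ⟨hp.1, hp.2.trans (one_div_le_one_div_of_le hT h)⟩
  exact_mod_cast this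

lemma h0_lower (z : ℝ) (h1 : 1 ≤ z) (h2 : z ≤ 3 / 2) : 1 ≤ Real.exp 8 * h0 z := by
  unfold h0
  rw [← Real.exp_add]
  apply Real.one_le_exp
  have h3 : z + 1 / z ≤ 5 / 2 := by
    have : 1 / z ≤ 1 := by
      rw [div_le_one (by linarith)]
      exact h1
    linarith
  have h4 : 0 ≤ z + 1 / z := by
    have : 0 ≤ 1 / z := by
      apply one_div_nonneg.mpr
      linarith
    linarith
  have hpi := Real.pi_lt_d2
  have hpi0 := Real.pi_pos
  have h5 : Real.pi * (z + 1 / z) ≤ 3.15 * (5 / 2) := by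
    apply mul_le_mul hpi.le h3 h4 (by norm_num)
  have h6 : -Real.pi * (z + 1 / z) = -(Real.pi * (z + 1 / z)) := by ring
  rw [h6]
  norm_num at h5 ⊢
  linarith

lemma sqrt_block (k m : ℕ) (hm : m ∈ blk k) :
    1 ≤ Real.sqrt ((m : ℝ) / 2 ^ k) ∧ Real.sqrt ((m : ℝ) / 2 ^ k) ≤ 3 / 2 := by
  unfold blk at hm
  rw [Finset.mem_Ico] at hm
  have hK : (0 : ℝ) < 2 ^ k := by positivity
  have h1 : (2 : ℝ) ^ k ≤ m := by exact_mod_cast hm.1
  have h2 : (m : ℝ) ≤ 2 * 2 ^ k := by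
    have : (m : ℝ) ≤ 2 ^ (k + 1) := by exact_mod_cast hm.2.le
    rw [pow_succ] at this
    linarith
  constructor
  · rw [Real.one_le_sqrt, le_div_iff₀ hK]
    linarith
  · rw [Real.sqrt_le_left (by norm_num), div_le_iff₀ hK]
    nlinarith

lemma k_le (ε : ℝ) (hε : 0 < ε) (k : ℕ) :
    (k : ℝ) ≤ 2 / (ε * Real.log 2) * ((2 : ℝ) ^ k) ^ (ε / 2) := by
  have hl : 0 < Real.log 2 := Real.log_pos (by norm_num)
  have h1 : ((2 : ℝ) ^ k) ^ (ε / 2) = Real.exp ((k : ℝ) * Real.log 2 * (ε / 2)) := by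
    rw [Real.rpow_def_of_pos (by positivity), Real.log_pow]
  have h2 := Real.add_one_le_exp ((k : ℝ) * Real.log 2 * (ε / 2))
  rw [← h1] at h2
  have h3 : (k : ℝ) * Real.log 2 * (ε / 2) ≤ ((2 : ℝ) ^ k) ^ (ε / 2) := by linarith
  rw [div_mul_eq_mul_div, le_div_iff₀ (by positivity)]
  nlinarith

theorem asma (h1 : Qpos1Statement) (h2 : LowaStatement) (h3 : IntaStatement) :
    AsmaStatement := by
  intro b hb2 hb3 hPB ε hε
  obtain ⟨C1, hC1, hlow⟩ := h2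
  obtain ⟨C2, hC2, hint⟩ := h3 b hb2 hb3 hPB (ε / 2) (by linarith)
  have hb1 : 0 < b - 1 := by linarith
  obtain ⟨a, ha⟩ : ∃ a : ℝ, a = (1 + b) / (2 * (b - 1)) := ⟨_, rfl⟩
  have hab : a * (b - 1) = (1 + b) / 2 := by
    rw [ha]
    field_simp
  have ha1 : 1 ≤ a := by
    rw [ha, le_div_iff₀ (by linarith)]
    linarith
  have ha2 : a ≤ 3 / 2 := by
    rw [ha, div_le_iff₀ (by linarith)]
    linarith
  rw [← ha]
  have hl : 0 < Real.log 2 := Real.log_pos (by norm_num)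
  obtain ⟨L, hL⟩ : ∃ L : ℝ, L = 2 / (ε * Real.log 2) := ⟨_, rfl⟩
  have hL0 : 0 < L := by
    rw [hL]
    positivity
  refine ⟨16 * Real.exp 8 ^ 4 * (C1 + 2 * C2 * L), by positivity, fun k => ?_⟩
  have hlowk := hlow k
  have hintk := hint k
  have hkL := k_le ε hε k
  rw [← hL] at hkL
  have hSb := sqrt_block k
  have hSA : ∀ t : ℝ, ∑ i ∈ Finset.Ico (1 : ℕ) (2 ^ (2 * k + 4)),
      (((Real.exp 8 * h0 (Real.sqrt ((i : ℝ) / 2 ^ k)) : ℝ)) : ℂ) * e (t * sqf i)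
      = ((Real.exp 8 : ℝ) : ℂ) * SA k t := by
    intro t
    unfold SA
    rw [Finset.mul_sum]
    refine Finset.sum_congr rfl (fun m _ => ?_)
    push_cast
    ring
  obtain ⟨K, hK⟩ : ∃ K : ℝ, K = (2 : ℝ) ^ k := ⟨_, rfl⟩
  have hK1 : 1 ≤ K := by
    rw [hK]
    exact one_le_pow₀ (by norm_num)
  have hK0 : 0 < K := by linarith
  obtain ⟨T, hT⟩ : ∃ T : ℝ, T = K ^ a := ⟨_, rfl⟩
  have hT0 : 0 < T := by
    rw [hT]
    positivity
  have hTK : T ≤ K ^ (3 / 2 : ℝ) := by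
    rw [hT]
    exact Real.rpow_le_rpow_of_exponent_le hK1 ha2
  -- step 1: Q at K^(3/2) against the integral
  have hQ : Q sqf (blk k) (K ^ (3 / 2 : ℝ)) ≤
      8 / T * ∫ t in (-T)..T, ‖((Real.exp 8 : ℝ) : ℂ) * SA k t‖ ^ 4 := by
    have hq := h1 sqf (fun m => Real.exp 8 * h0 (Real.sqrt ((m : ℝ) / 2 ^ k))) (blk k)
      (Finset.Ico (1 : ℕ) (2 ^ (2 * k + 4))) T hT0 ?_ ?_ ?_
    · simp only [hSA] at hq
      exact (q_anti sqf (blk k) T _ hT0 hTK).trans hq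
    · intro m hm
      unfold blk at hm
      rw [Finset.mem_Ico] at hm ⊢
      refine ⟨le_trans (Nat.one_le_two_pow) hm.1, lt_of_lt_of_le hm.2 ?_⟩
      exact Nat.pow_le_pow_right (by norm_num) (by omega)
    · intro i _
      unfold h0
      positivity
    · intro i hi
      exact h0_lower _ (hSb i hi).1 (hSb i hi).2
  -- the integrand
  obtain ⟨f, hf⟩ : ∃ f : ℝ → ℝ, f = fun t => ‖SA k t‖ ^ 4 := ⟨_, rfl⟩
  have hfc : Continuous f := by
    rw [hf]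
    exact ((sa_cont k).norm).pow 4
  have hf0 : ∀ t, 0 ≤ f t := by
    intro t
    rw [hf]
    positivity
  have hfi : ∀ x y : ℝ, IntervalIntegrable f MeasureTheory.volume x y :=
    fun x y => hfc.intervalIntegrable x y
  have heven : ∫ t in (-T)..T, f t = 2 * ∫ t in (0 : ℝ)..T, f t := by
    rw [← intervalIntegral.integral_add_adjacent_intervals (hfi (-T) 0) (hfi 0 T)]
    have h := intervalIntegral.integral_comp_neg (a := (0 : ℝ)) (b := T) (f := f)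
    rw [neg_zero] at h
    rw [← h]
    have h' : (fun x => f (-x)) = f := by
      funext x
      rw [hf]
      simp only
      rw [sa_neg_norm]
    rw [h']
    ring
  have hQ2 : Q sqf (blk k) (K ^ (3 / 2 : ℝ)) ≤
      16 * Real.exp 8 ^ 4 / T * ∫ t in (0 : ℝ)..T, f t := by
    refine hQ.trans (le_of_eq ?_)
    have h : (fun t : ℝ => ‖((Real.exp 8 : ℝ) : ℂ) * SA k t‖ ^ 4)
        = fun t => Real.exp 8 ^ 4 * f t := by
      funext t
      rw [hf]
      simp only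
      rw [norm_mul, mul_pow, Complex.norm_real, Real.norm_of_nonneg (Real.exp_pos 8).le]
    rw [h, intervalIntegral.integral_const_mul, heven]
    ring
  -- step 2: the integral
  obtain ⟨s, hs⟩ : ∃ s : ℝ, s = Real.sqrt K := ⟨_, rfl⟩
  have hs0 : 0 < s := by
    rw [hs]
    exact Real.sqrt_pos.mpr hK0
  have hsK : s * K = K ^ (3 / 2 : ℝ) := by
    rw [hs, Real.sqrt_eq_rpow]
    nth_rewrite 2 [← Real.rpow_one K]
    rw [← Real.rpow_add hK0]
    norm_num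
  rw [← hK] at hlowk hintk hkL
  rw [← hs] at hlowk hintk
  have hlow2 : ∫ t in (0 : ℝ)..s, f t ≤ C1 * K ^ (7 / 2 : ℝ) := by
    rw [hf]
    exact hlowk
  obtain ⟨B, hB⟩ : ∃ B : ℝ, B = C2 * K ^ (ε / 2) * (T + K ^ (3 - b / 2) * T ^ (b - 1)) :=
    ⟨_, rfl⟩
  have hB0 : 0 ≤ B := by
    rw [hB]
    positivity
  have hchain : ∀ n : ℕ, (∀ i < n, s * 2 ^ i ≤ T) →
      ∫ t in (0 : ℝ)..(s * 2 ^ n), f t ≤ C1 * K ^ (7 / 2 : ℝ) + n * B := by
    intro n
    induction n with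
    | zero =>
      intro _
      simpa using hlow2
    | succ n ih =>
      intro hn
      have h4 := ih (fun i hi => hn i (by omega))
      have h5 := hn n (by omega)
      have h6 : s ≤ s * 2 ^ n := by
        have : (1 : ℝ) ≤ 2 ^ n := one_le_pow₀ (by norm_num)
        nlinarith
      have h7 := hintk (s * 2 ^ n) h6 (h5.trans hTK)
      have h8 : (s * 2 ^ (n + 1) : ℝ) = 2 * (s * 2 ^ n) := by
        rw [pow_succ]
        ring
      rw [h8, ← intervalIntegral.integral_add_adjacent_intervals (hfi 0 (s * 2 ^ n)) (hfi _ _)]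
      have h9 : ∫ t in (s * 2 ^ n)..(2 * (s * 2 ^ n)), f t ≤ B := by
        rw [hf]
        refine h7.trans ?_
        rw [hB]
        have h10 : (s * 2 ^ n : ℝ) ^ (b - 1) ≤ T ^ (b - 1) :=
          Real.rpow_le_rpow (by positivity) h5 hb1.le
        have h11 : 0 ≤ K ^ (3 - b / 2) := by positivity
        gcongr
      push_cast
      linarith
  have hex : ∃ n : ℕ, T ≤ s * 2 ^ n := by
    refine ⟨k, ?_⟩
    rw [← hK, hsK]
    exact hTK
  obtain ⟨n, hn1, hn2, hn3⟩ : ∃ n : ℕ, T ≤ s * 2 ^ n ∧ n ≤ k ∧ ∀ i < n, s * 2 ^ i ≤ T := by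
    refine ⟨Nat.find hex, Nat.find_spec hex, Nat.find_min' hex ?_, fun i hi => ?_⟩
    · rw [← hK, hsK]
      exact hTK
    · exact (not_le.mp (Nat.find_min hex hi)).le
  have hint1 : ∫ t in (0 : ℝ)..T, f t ≤ C1 * K ^ (7 / 2 : ℝ) + k * B := by
    have h4 := hchain n hn3
    have h5 : ∫ t in (0 : ℝ)..T, f t ≤ ∫ t in (0 : ℝ)..(s * 2 ^ n), f t := by
      apply intervalIntegral.integral_mono_interval le_rfl hT0.le hn1
      · exact Filter.Eventually.of_forall hf0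
      · exact hfi _ _
    have h6 : (n : ℝ) * B ≤ k * B := by
      apply mul_le_mul_of_nonneg_right _ hB0
      exact_mod_cast hn2
    linarith
  -- step 3: exponents
  have hTb : K ^ (3 - b / 2) * T ^ (b - 1) = K ^ (7 / 2 : ℝ) := by
    rw [hT, ← Real.rpow_mul hK0.le, hab, ← Real.rpow_add hK0]
    congr 1
    ring
  have hT72 : T ≤ K ^ (7 / 2 : ℝ) := by
    refine hTK.trans (Real.rpow_le_rpow_of_exponent_le hK1 (by norm_num))
  have hB2 : B ≤ 2 * C2 * K ^ (ε / 2) * K ^ (7 / 2 : ℝ) := by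
    rw [hB, hTb]
    have h4 : 0 ≤ C2 * K ^ (ε / 2) := by positivity
    nlinarith
  have hkB : (k : ℝ) * B ≤ 2 * C2 * L * K ^ (7 / 2 + ε) := by
    have h4 : (k : ℝ) * B ≤ (L * K ^ (ε / 2)) * (2 * C2 * K ^ (ε / 2) * K ^ (7 / 2 : ℝ)) :=
      mul_le_mul hkL hB2 hB0 (by positivity)
    refine h4.trans (le_of_eq ?_)
    have h5 : K ^ (7 / 2 + ε) = K ^ (ε / 2) * K ^ (ε / 2) * K ^ (7 / 2 : ℝ) := by
      rw [← Real.rpow_add hK0, ← Real.rpow_add hK0]
      congr 1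
      ring
    rw [h5]
    ring
  have h72 : K ^ (7 / 2 : ℝ) ≤ K ^ (7 / 2 + ε) :=
    Real.rpow_le_rpow_of_exponent_le hK1 (by linarith)
  have hint2 : ∫ t in (0 : ℝ)..T, f t ≤ (C1 + 2 * C2 * L) * K ^ (7 / 2 + ε) := by
    have : C1 * K ^ (7 / 2 : ℝ) ≤ C1 * K ^ (7 / 2 + ε) :=
      mul_le_mul_of_nonneg_left h72 hC1.le
    nlinarith
  rw [← hK]
  refine hQ2.trans ?_
  have h4 : K ^ (7 / 2 - a + ε) = K ^ (7 / 2 + ε) / T := by
    rw [hT, ← Real.rpow_sub hK0]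
    congr 1
    ring
  rw [h4]
  calc 16 * Real.exp 8 ^ 4 / T * ∫ t in (0 : ℝ)..T, f t
      ≤ 16 * Real.exp 8 ^ 4 / T * ((C1 + 2 * C2 * L) * K ^ (7 / 2 + ε)) := by
        apply mul_le_mul_of_nonneg_left hint2
        positivity
    _ = 16 * Real.exp 8 ^ 4 * (C1 + 2 * C2 * L) * (K ^ (7 / 2 + ε) / T) := by
        ring

end Pool.Agent.Lib.MP_3ee548_nt.RS.H93
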